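import Mathlib

/-!
# Sets of natural numbers in which every difference occurs at most twice
-/

set_option autoImplicit false

namespace Pool.Agent.U492.GP

theorem card_le_two {G : Finset (ℕ × ℕ)} (φ : ℕ × ℕ → ℕ) (hφ : Set.InjOn φ (G : Set (ℕ × ℕ)))
    {U : Set ℕ} (hsub : ∀ p ∈ G, φ p ∈ U) (hU : U.encard ≤ 2) : G.card ≤ 2 := by
  classical
  have h1 : ((G.image φ : Finset ℕ) : Set ℕ) ⊆ U := by
    intro x hx
    obtain ⟨p, hp, rfl⟩ := Finset.mem_image.1 (Finset.mem_coe.1 hx)
    exact hsub p hp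
  have h2 := (Set.encard_le_encard h1).trans hU
  rw [Set.encard_coe_eq_coe_finsetCard, Finset.card_image_of_injOn hφ] at h2
  exact_mod_cast h2

/-- If every positive difference occurs at most twice in `S`, then `S` has at most `2 √N + 1`
elements below `N`. -/
theorem card_le_sqrt {S : Set ℕ} (h : ∀ d, 0 < d → {k | k ∈ S ∧ k + d ∈ S}.encard ≤ 2) (N : ℕ) :
    ((S ∩ Set.Iio N).ncard : ℝ) ≤ 2 * √N + 1 := by
  classical
  obtain ⟨F, hF⟩ : ∃ F : Finset ℕ, F = (Finset.range N).filter (· ∈ S) := ⟨_, rfl⟩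
  have hFS : S ∩ Set.Iio N = (F : Set ℕ) := by
    ext x
    rw [hF]
    simp only [Set.mem_inter_iff, Set.mem_Iio, Finset.coe_filter, Finset.mem_range,
      Set.mem_setOf_eq]
    exact and_comm
  rw [hFS, Set.ncard_coe_finset]
  obtain ⟨T, hT⟩ : ∃ T : Finset ℤ, T = Finset.Ioo (-(N : ℤ)) N := ⟨_, rfl⟩
  have hTc : T.card ≤ 2 * N := by
    rw [hT, Int.card_Ioo]
    omega
  have hmaps : ∀ p ∈ F.offDiag, ((p.2 : ℤ) - p.1) ∈ T := by
    intro p hp
    rw [Finset.mem_offDiag, hF, Finset.mem_filter, Finset.mem_filter, Finset.mem_range,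
      Finset.mem_range] at hp
    rw [hT, Finset.mem_Ioo]
    omega
  have hfib : ∀ d ∈ T, (F.offDiag.filter fun p => ((p.2 : ℤ) - p.1) = d).card ≤ 2 := by
    intro d _
    rcases lt_trichotomy d 0 with hneg | rfl | hpos
    · refine card_le_two Prod.snd ?_ (U := {k | k ∈ S ∧ k + d.natAbs ∈ S}) ?_
        (h _ (by omega))
      · intro p hp p' hp' he
        rw [Finset.mem_coe, Finset.mem_filter] at hp hp'
        ext
        · have h1 := hp.2
          have h2 := hp'.2
          have h3 : p.2 = p'.2 := he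
          omega
        · exact he
      · intro p hp
        rw [Finset.mem_filter, Finset.mem_offDiag, hF, Finset.mem_filter, Finset.mem_filter] at hp
        obtain ⟨⟨⟨-, h1⟩, ⟨-, h2⟩, -⟩, h3⟩ := hp
        have h4 : p.2 + d.natAbs = p.1 := by omega
        exact ⟨h2, by rw [h4]; exact h1⟩
    · have h0 : (F.offDiag.filter fun p => ((p.2 : ℤ) - p.1) = 0) = ∅ := by
        rw [Finset.filter_eq_empty_iff]
        intro p hp h1
        rw [Finset.mem_offDiag] at hp
        exact hp.2.2 (by omega)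
      rw [h0]
      simp
    · refine card_le_two Prod.fst ?_ (U := {k | k ∈ S ∧ k + d.natAbs ∈ S}) ?_
        (h _ (by omega))
      · intro p hp p' hp' he
        rw [Finset.mem_coe, Finset.mem_filter] at hp hp'
        ext
        · exact he
        · have h1 := hp.2
          have h2 := hp'.2
          have h3 : p.1 = p'.1 := he
          omega
      · intro p hp
        rw [Finset.mem_filter, Finset.mem_offDiag, hF, Finset.mem_filter, Finset.mem_filter] at hp
        obtain ⟨⟨⟨-, h1⟩, ⟨-, h2⟩, -⟩, h3⟩ := hp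
        have h4 : p.1 + d.natAbs = p.2 := by omega
        exact ⟨h1, by rw [h4]; exact h2⟩
  have h1 := Finset.card_le_mul_card_image_of_maps_to hmaps 2 hfib
  rw [Finset.offDiag_card] at h1
  obtain ⟨m, hm⟩ : ∃ m, m = F.card := ⟨_, rfl⟩
  rw [← hm] at h1 ⊢
  have h2 : m * m ≤ m + 4 * N := by omega
  have h3 : (m : ℝ) * m ≤ m + 4 * N := by exact_mod_cast h2
  have h4 : (√(N : ℝ)) ^ 2 = N := Real.sq_sqrt (Nat.cast_nonneg N)
  have h5 : 0 ≤ √(N : ℝ) := Real.sqrt_nonneg _
  by_contra hlt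
  push Not at hlt
  nlinarith

end Pool.Agent.U492.GP
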