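import Pool.Agent.U492.GP.Base
import Pool.Agent.U492.GP.Count
import Pool.Agent.N625.AP.Base

/-!
# Exponentials of polynomials over the fields of approximable numbers
-/

set_option autoImplicit false

namespace Pool.Agent.U492.GP

open Complex Polynomial
open Pool.Agent.R347.LW Pool.Agent.R347.SX Pool.Agent.N625.AP

/-- The complex number `t` is not approximable for any sequence of integers `≥ 2`. -/
def NeverApproximable (t : ℂ) : Prop := ∀ q : ℕ → ℕ, (∀ k, 2 ≤ q k) → ¬ Approximable q t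

theorem never_iff {t : ℂ} : NeverApproximable t ↔ Far t :=
  forall_congr' fun q => imp_congr_right fun _ => not_congr (approximable_iff q t)

theorem lin_mono (f : Fin 3 → ℕ) (hf : Function.Injective f) :
    LinearIndependent ℚ fun i => (X : ℚ[X]) ^ f i := by
  have h := (Polynomial.basisMonomials ℚ).linearIndependent.comp f hf
  have e : (fun i => (X : ℚ[X]) ^ f i) = (Polynomial.basisMonomials ℚ) ∘ f := by
    funext i
    simp [Polynomial.X_pow_eq_monomial]
  rw [e]
  exact h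

/-- at most two elements -/
theorem encard_le_two {S : Set ℕ} (h : ∀ f : Fin 3 → ℕ, Function.Injective f →
    ∃ i, f i ∉ S) : S.encard ≤ 2 := by
  by_contra hlt
  push Not at hlt
  have h3 : (3 : ℕ∞) ≤ S.encard := by
    have := Order.add_one_le_of_lt hlt
    exact (by norm_num : (3 : ℕ∞) = 2 + 1) ▸ this
  obtain ⟨T, hTS, hT⟩ := Set.exists_subset_encard_eq h3
  obtain ⟨x, y, z, hxy, hxz, hyz, rfl⟩ := Set.encard_eq_three.1 hT
  obtain ⟨i, hi⟩ := h ![x, y, z] (by
    intro i j hij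
    fin_cases i <;> fin_cases j <;> simp_all [eq_comm])
  fin_cases i
  · exact hi (hTS (by simp))
  · exact hi (hTS (by simp))
  · exact hi (hTS (by simp))

variable {q : ℕ → ℕ} (hq : ∀ k, 2 ≤ q k)

include hq

theorem mono_le_two {t : ℂ} (ht : Far t) {ξ : ℂ} (hξ : ξ ≠ 0) {s : ℂ}
    (hs : ∀ x : ℝ, RAppr q x → s ≠ x) :
    {k : ℕ | Appr q (exp (ξ * t ^ k)) ∧ Appr q (exp (s * (ξ * t ^ k)))}.encard ≤ 2 := by
  refine encard_le_two fun f hf => ?_
  by_contra h
  push Not at h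
  obtain ⟨x, hx, hsx⟩ := grid hq ht hξ _ (lin_mono f hf) s
    (fun i => by
      have := (h i).1
      rwa [map_pow, aeval_X])
    (fun i => by
      have := (h i).2
      rwa [map_pow, aeval_X])
  exact hs x hx hsx

theorem far_notR {s : ℂ} (h : ¬ Appr q s) : ∀ x : ℝ, RAppr q x → s ≠ x := by
  rintro x hx rfl
  exact h (hx.appr hq)

theorem pow_notMem {t : ℂ} (ht : Far t) {d : ℕ} (hd : 0 < d) : ¬ Appr q (t ^ d) := by
  refine ratio_notMem hq ht (X ^ d) 1 one_ne_zero (fun c hc => ?_) (by simp)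
  have h1 := congrArg Polynomial.natDegree hc
  rw [natDegree_X_pow, mul_one, natDegree_C] at h1
  omega

theorem differences {t : ℂ} (ht : Far t) {ξ : ℂ} (hξ : ξ ≠ 0) {d : ℕ} (hd : 0 < d) :
    {k : ℕ | k ∈ {k : ℕ | Appr q (exp (ξ * t ^ k))} ∧
      k + d ∈ {k : ℕ | Appr q (exp (ξ * t ^ k))}}.encard ≤ 2 := by
  refine le_trans (Set.encard_le_encard ?_)
    (mono_le_two hq ht hξ (s := t ^ d) (far_notR hq (pow_notMem hq ht hd)))
  rintro k ⟨h1, h2⟩
  refine ⟨h1, ?_⟩
  have h3 : Appr q (exp (ξ * t ^ (k + d))) := h2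
  rwa [show t ^ d * (ξ * t ^ k) = ξ * t ^ (k + d) by rw [pow_add]; ring]

theorem count {t : ℂ} (ht : Far t) {ξ : ℂ} (hξ : ξ ≠ 0) (N : ℕ) :
    (({k : ℕ | Appr q (exp (ξ * t ^ k))} ∩ Set.Iio N).ncard : ℝ) ≤ 2 * √N + 1 :=
  card_le_sqrt (fun _ hd => differences hq ht hξ hd) N

end Pool.Agent.U492.GP
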