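import Pool.Agent.R347.SX.Trans

/-!
# The six exponentials theorem over the field of approximable numbers: values of polynomials

Library files used: `Pool.Agent.R347.SX` (the six exponentials theorem for approximable numbers, lower
bounds for polynomials at numbers which are never approximable).
-/

set_option autoImplicit false

namespace Pool.Agent.U492.GP

open Complex Polynomial
open Pool.Agent.R347.LW Pool.Agent.R347.SX

/-! ## Numbers which are never approximable -/

/-- membership in an algebraically closed field -/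
theorem mem_of_algebraic {K : IntermediateField ℚ ℂ} (hK : IsAlgClosed K) {z : ℂ}
    (h : IsAlgebraic K z) : z ∈ K := by
  obtain ⟨w, hw⟩ := minpoly.mem_range_of_degree_eq_one K _
    (IsAlgClosed.degree_eq_one_of_irreducible K (minpoly.irreducible h.isIntegral))
  exact hw ▸ w.2

theorem far_of_algebraic {t u : ℂ} (hu : Far u)
    (h : IsAlgebraic (IntermediateField.adjoin ℚ {t}) u) : Far t := by
  intro q hq ht
  apply hu q hq
  have hle : IntermediateField.adjoin ℚ {t} ≤ UK hq := by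
    rw [IntermediateField.adjoin_le_iff]
    rintro x rfl
    exact ht
  let _ : Algebra (IntermediateField.adjoin ℚ {t}) (UK hq) :=
    (IntermediateField.inclusion hle).toAlgebra
  have : IsScalarTower (IntermediateField.adjoin ℚ {t}) (UK hq) ℂ :=
    IsScalarTower.of_algebraMap_eq fun x => rfl
  exact mem_of_algebraic (UK_closed hq) (h.tower_top (K := IntermediateField.adjoin ℚ {t}) (UK hq))

theorem appr_of_algebraic {q : ℕ → ℕ} (hq : ∀ k, 2 ≤ q k) {z : ℂ} (h : IsAlgebraic ℚ z) :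
    Appr q z := by
  have h' : IsAlgebraic ℤ z := (IsFractionRing.isAlgebraic_iff ℤ ℚ ℂ).2 h
  obtain ⟨P, hP, hPz⟩ := h'
  exact Appr.ofAlg hq P hP hPz

theorem transc_exp {q : ℕ → ℕ} (hq : ∀ k, 2 ≤ q k) {z : ℂ} (hz : Appr q z) (hz0 : z ≠ 0) :
    ¬ Appr q (exp z) := by
  intro h
  have h1 := algIndU hq 1 (fun _ => (⟨z, hz⟩ : UK hq)) (by
    rw [linearIndependent_unique_iff]
    intro h0
    exact hz0 (congrArg Subtype.val h0))
  have h2 := h1.transcendental 0
  refine h2 ?_
  have h3 : exp (((⟨z, hz⟩ : UK hq) : ℂ)) = algebraMap (UK hq) ℂ ⟨exp z, h⟩ := rfl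
  rw [h3]
  exact isAlgebraic_algebraMap _

/-- nonzero logarithms of algebraic numbers -/
theorem far_log {l : ℂ} (hl : l ≠ 0) (h : IsAlgebraic ℚ (exp l)) : Far l := fun _ hq hlq =>
  transc_exp hq hlq hl (appr_of_algebraic hq h)

/-- values of the exponential function -/
theorem far_exp {z : ℂ} (hz : z ≠ 0) (h : IsAlgebraic ℚ z) : Far (exp z) := fun _ hq =>
  transc_exp hq (appr_of_algebraic hq h) hz

/-- irrational powers of algebraic numbers -/
theorem far_pow {l β : ℂ} (hl : l ≠ 0) (h : IsAlgebraic ℚ (exp l)) (hβ : IsAlgebraic ℚ β)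
    (hirr : ∀ r : ℚ, β ≠ r) : Far (exp (β * l)) := by
  intro q hq hk
  obtain ⟨x, hx, rfl⟩ := (Pool.Agent.R347.GS.gs_iff hq l β hl (appr_of_algebraic hq h)
    (appr_of_algebraic hq hβ)).1 hk
  obtain ⟨r, hr⟩ := Pool.Agent.R347.GS.rappr_alg hx (by
    exact (isAlgebraic_algebraMap_iff (R := ℚ) (algebraMap ℝ ℂ).injective).1 hβ)
  exact hirr r (by rw [← hr]; norm_cast)

/-! ## Three polynomials -/

variable {q : ℕ → ℕ} (hq : ∀ k, 2 ≤ q k)

include hq

theorem appr_zpow {z : ℂ} (n : ℤ) (h : Appr q (exp z)) : Appr q (exp (n * z)) := by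
  rw [Complex.exp_int_mul]
  exact (zpow_mem (show exp z ∈ UK hq from h) n : exp z ^ n ∈ UK hq)

/-- **The grid theorem.** -/
theorem grid {t : ℂ} (ht : Far t) {ξ : ℂ} (hξ : ξ ≠ 0) (P : Fin 3 → ℚ[X])
    (hP : LinearIndependent ℚ P) (s : ℂ) (h1 : ∀ i, Appr q (exp (ξ * aeval t (P i))))
    (h2 : ∀ i, Appr q (exp (s * (ξ * aeval t (P i))))) : ∃ x : ℝ, RAppr q x ∧ s = x := by
  classical
  choose b hb using fun i => IsLocalization.integerNormalization_map_to_map (nonZeroDivisors ℤ) (P i)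
  obtain ⟨Q, hQ⟩ : ∃ Q : Fin 3 → ℤ[X],
      Q = fun i => IsLocalization.integerNormalization (nonZeroDivisors ℤ) (P i) := ⟨_, rfl⟩
  have hb0 : ∀ i, ((b i : ℤ) : ℚ) ≠ 0 := fun i => by
    have := nonZeroDivisors.ne_zero (b i).2
    exact_mod_cast this
  have hQP : ∀ i, (Q i).map (algebraMap ℤ ℚ) = C ((b i : ℤ) : ℚ) * P i := by
    intro i
    rw [hQ]
    beta_reduce
    rw [hb i, ← Polynomial.smul_eq_C_mul]
    rfl
  have hval : ∀ i, aeval t (Q i) = ((b i : ℤ) : ℂ) * aeval t (P i) := by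
    intro i
    have e1 : aeval t (Q i) = aeval t ((Q i).map (algebraMap ℤ ℚ)) := by
      rw [Polynomial.aeval_map_algebraMap]
    rw [e1, hQP, map_mul, aeval_C]
    congr 1
  have hind : ∀ c : Fin 3 → ℤ, ∑ i, C (c i) * Q i = 0 → c = 0 := by
    intro c hc
    have e1 : ∑ i, ((c i : ℚ) * ((b i : ℤ) : ℚ)) • P i = 0 := by
      have e2 := congrArg (Polynomial.map (algebraMap ℤ ℚ)) hc
      rw [Polynomial.map_sum, Polynomial.map_zero] at e2
      rw [← e2]
      refine Finset.sum_congr rfl fun i _ => ?_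
      rw [Polynomial.map_mul, hQP, Polynomial.map_C, Polynomial.smul_eq_C_mul, C_mul, mul_assoc]
      rfl
    have e3 := Fintype.linearIndependent_iff.1 hP _ e1
    funext i
    have e4 := e3 i
    have e5 : (c i : ℚ) = 0 := (mul_eq_zero.1 e4).resolve_right (hb0 i)
    exact_mod_cast e5
  refine six hq s (fun i => ξ * aeval t (Q i)) (far_low ht Q hind ξ hξ hq) (fun i => ?_)
    fun i => ?_
  · beta_reduce
    rw [hval, show ξ * (((b i : ℤ) : ℂ) * aeval t (P i)) =
      ((b i : ℤ) : ℂ) * (ξ * aeval t (P i)) by ring]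
    exact appr_zpow hq _ (h1 i)
  · beta_reduce
    rw [hval, show s * (ξ * (((b i : ℤ) : ℂ) * aeval t (P i))) =
      ((b i : ℤ) : ℂ) * (s * (ξ * aeval t (P i))) by ring]
    exact appr_zpow hq _ (h2 i)

/-- rational functions of a number which is never approximable -/
theorem ratio_notMem {t : ℂ} (ht : Far t) (A B : ℚ[X]) (hB : B ≠ 0)
    (hAB : ∀ c : ℚ, A ≠ C c * B) {s : ℂ} (hs : s * aeval t B = aeval t A) : ¬ Appr q s := by
  intro hsK
  have hcl := UK_closed hq
  obtain ⟨x, hx⟩ : ∃ x : UK hq, (x : ℂ) = s := ⟨⟨s, hsK⟩, rfl⟩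
  obtain ⟨F, hF⟩ : ∃ F : (UK hq)[X], F = C x * B.map (algebraMap ℚ (UK hq)) -
      A.map (algebraMap ℚ (UK hq)) := ⟨_, rfl⟩
  have hroot : aeval t F = 0 := by
    rw [hF, map_sub, map_mul, aeval_C, aeval_map_algebraMap, aeval_map_algebraMap, ← hs, ← hx]
    exact sub_self _
  have hF0 : F = 0 := by
    by_contra h0
    exact ht q hq (mem_of_algebraic hcl ⟨F, h0, hroot⟩)
  obtain ⟨j, hj⟩ : ∃ j, B.coeff j ≠ 0 := by
    by_contra h
    push Not at h
    exact hB (Polynomial.ext fun j => by rw [h j, coeff_zero])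
  have hcoef : ∀ i, (x : ℂ) * (B.coeff i : ℂ) = (A.coeff i : ℂ) := by
    intro i
    have h1 := congrArg (fun G : (UK hq)[X] => ((G.coeff i : UK hq) : ℂ)) hF0
    rw [hF] at h1
    simp only [coeff_sub, coeff_C_mul, coeff_map, coeff_zero] at h1
    have h2 : (x : ℂ) * (B.coeff i : ℂ) - (A.coeff i : ℂ) = 0 := by
      simpa using h1
    linear_combination h2
  have hxr : (x : ℂ) = ((A.coeff j / B.coeff j : ℚ) : ℂ) := by
    have h1 := hcoef j
    have h2 : ((B.coeff j : ℚ) : ℂ) ≠ 0 := by exact_mod_cast hj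
    push_cast
    rw [eq_div_iff h2]
    exact h1
  apply hAB (A.coeff j / B.coeff j)
  ext i
  rw [coeff_C_mul]
  have h1 := hcoef i
  rw [hxr] at h1
  exact_mod_cast h1.symm

end Pool.Agent.U492.GP
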