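import Mathlib

/-!
# Sets of positive integers without three multiplicatively independent elements
-/

set_option autoImplicit false

namespace Pool.Agent.U492.GP

open Finset

/-- the exponents of the primes -/
def vv (n p : ℕ) : ℚ := n.factorization p

theorem vv_inj {m n : ℕ} (hm : m ≠ 0) (hn : n ≠ 0) (h : ∀ p, vv m p = vv n p) : m = n := by
  refine Nat.factorization_inj hm hn (Finsupp.ext fun p => ?_)
  have := h p
  unfold vv at this
  exact_mod_cast this

theorem vv_le {n N p : ℕ} (hn : n ≠ 0) (hN : n ≤ N) : n.factorization p ≤ Nat.log 2 N := by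
  by_cases hp : p.Prime
  · have h1 : n.factorization p ≤ Nat.log p n := by
      rw [Nat.factorization_def n hp]
      exact padicValNat_le_nat_log n
    refine h1.trans ((Nat.log_anti_left (by norm_num) hp.two_le).trans (Nat.log_mono_right hN))
  · rw [Nat.factorization_eq_zero_of_not_prime n hp]
    exact Nat.zero_le _

/-- a relation between logarithms gives a relation between the exponents -/
theorem rel_of_log (f : Fin 3 → ℕ) (hf : ∀ i, f i ≠ 0) (c : Fin 3 → ℤ)
    (h : ∑ i, (c i : ℝ) * Real.log (f i) = 0) (p : ℕ) : ∑ i, (c i : ℚ) * vv (f i) p = 0 := by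
  have hc : ∀ i, (c i : ℤ) = ((c i).toNat : ℤ) - ((-(c i)).toNat : ℤ) := fun i => by omega
  obtain ⟨A, hA⟩ : ∃ A : ℕ, A = ∏ i, f i ^ (c i).toNat := ⟨_, rfl⟩
  obtain ⟨B, hB⟩ : ∃ B : ℕ, B = ∏ i, f i ^ (-(c i)).toNat := ⟨_, rfl⟩
  have hA0 : A ≠ 0 := by rw [hA]; exact Finset.prod_ne_zero_iff.2 fun i _ => pow_ne_zero _ (hf i)
  have hB0 : B ≠ 0 := by rw [hB]; exact Finset.prod_ne_zero_iff.2 fun i _ => pow_ne_zero _ (hf i)
  have hAB : A = B := by
    have h1 : Real.log A = Real.log B := by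
      rw [hA, hB]
      push_cast
      rw [Real.log_prod (fun i _ => pow_ne_zero _ (by exact_mod_cast hf i)),
        Real.log_prod (fun i _ => pow_ne_zero _ (by exact_mod_cast hf i)), ← sub_eq_zero,
        ← Finset.sum_sub_distrib, ← h]
      refine Finset.sum_congr rfl fun i _ => ?_
      rw [Real.log_pow, Real.log_pow, ← sub_mul]
      congr 1
      have := hc i
      have h2 : ((c i : ℤ) : ℝ) = (((c i).toNat : ℤ) : ℝ) - (((-(c i)).toNat : ℤ) : ℝ) := by
        exact_mod_cast this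
      rw [h2]
      push_cast
      rfl
    have h2 := Real.log_injOn_pos (Set.mem_Ioi.2 (by exact_mod_cast Nat.pos_of_ne_zero hA0))
      (Set.mem_Ioi.2 (by exact_mod_cast Nat.pos_of_ne_zero hB0)) h1
    exact_mod_cast h2
  have h3 : A.factorization p = B.factorization p := by rw [hAB]
  rw [hA, hB, Nat.factorization_prod (fun i _ => pow_ne_zero _ (hf i)),
    Nat.factorization_prod (fun i _ => pow_ne_zero _ (hf i))] at h3
  simp only [Nat.factorization_pow, Finsupp.coe_finsetSum, Finset.sum_apply, Finsupp.smul_apply,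
    smul_eq_mul] at h3
  have h4 : ∑ i, (((c i).toNat : ℚ)) * vv (f i) p = ∑ i, (((-(c i)).toNat : ℚ)) * vv (f i) p := by
    unfold vv
    exact_mod_cast h3
  rw [← sub_eq_zero, ← Finset.sum_sub_distrib] at h4
  rw [← h4]
  refine Finset.sum_congr rfl fun i _ => ?_
  rw [← sub_mul]
  congr 1
  have := hc i
  have h5 : ((c i : ℤ) : ℚ) = (((c i).toNat : ℤ) : ℚ) - (((-(c i)).toNat : ℤ) : ℚ) := by
    exact_mod_cast this
  rw [h5]
  push_cast
  rfl

/-- two coordinates determine the elements -/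
theorem exists_coords {S : Set ℕ} (hS0 : ∀ n ∈ S, n ≠ 0) (h : ∀ f : Fin 3 → ℕ, (∀ i, f i ∈ S) →
    ∃ c : Fin 3 → ℚ, c ≠ 0 ∧ ∀ p, ∑ i, c i * vv (f i) p = 0) :
    ∃ p r : ℕ, ∀ m ∈ S, ∀ n ∈ S, vv m p = vv n p → vv m r = vv n r → m = n := by
  by_cases h1 : ∀ n ∈ S, n = 1
  · exact ⟨0, 0, fun m hm n hn _ _ => (h1 m hm).trans (h1 n hn).symm⟩
  push Not at h1
  obtain ⟨a, ha, ha1⟩ := h1
  obtain ⟨p, hp⟩ : ∃ p, vv a p ≠ 0 := by
    by_contra hcon
    push Not at hcon
    refine ha1 (vv_inj (hS0 a ha) one_ne_zero fun p => ?_)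
    rw [hcon p]
    simp [vv]
  by_cases h2 : ∀ b ∈ S, ∀ r, vv a p * vv b r = vv b p * vv a r
  · refine ⟨p, p, fun m hm n hn hmn _ => vv_inj (hS0 m hm) (hS0 n hn) fun r => ?_⟩
    have h3 := h2 m hm r
    have h4 := h2 n hn r
    rw [hmn] at h3
    exact mul_left_cancel₀ hp (h3.trans h4.symm)
  push Not at h2
  obtain ⟨b, hb, r, hr⟩ := h2
  refine ⟨p, r, fun m hm n hn hp' hr' => vv_inj (hS0 m hm) (hS0 n hn) fun k => ?_⟩
  -- the vector of `c` is a combination of those of `a` and `b`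
  have key : ∀ c ∈ S, ∃ x y : ℚ, ∀ k, vv c k = x * vv a k + y * vv b k := by
    intro c hc
    obtain ⟨z, hz0, hz⟩ := h ![a, b, c] (by
      intro i
      fin_cases i
      · exact ha
      · exact hb
      · exact hc)
    have hz' : ∀ k, z 0 * vv a k + z 1 * vv b k + z 2 * vv c k = 0 := by
      intro k
      have := hz k
      rw [Fin.sum_univ_three] at this
      exact this
    have hz2 : z 2 ≠ 0 := by
      intro h20
      have e1 := hz' p
      have e2 := hz' r
      rw [h20, zero_mul, add_zero] at e1 e2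
      have hD : vv a p * vv b r - vv b p * vv a r ≠ 0 := sub_ne_zero.2 hr
      have e3 : z 0 * (vv a p * vv b r - vv b p * vv a r) = 0 := by
        linear_combination vv b r * e1 - vv b p * e2
      have e4 : z 1 * (vv a p * vv b r - vv b p * vv a r) = 0 := by
        linear_combination vv a p * e2 - vv a r * e1
      have e5 := (mul_eq_zero.1 e3).resolve_right hD
      have e6 := (mul_eq_zero.1 e4).resolve_right hD
      apply hz0
      funext i
      fin_cases i
      · exact e5
      · exact e6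
      · exact h20
    refine ⟨-(z 0 / z 2), -(z 1 / z 2), fun k => ?_⟩
    have := hz' k
    field_simp
    linear_combination this
  obtain ⟨x, y, hxy⟩ := key m hm
  obtain ⟨x', y', hxy'⟩ := key n hn
  have hD : vv a p * vv b r - vv b p * vv a r ≠ 0 := sub_ne_zero.2 hr
  rw [hxy, hxy'] at hp' hr'
  have e3 : (x - x') * (vv a p * vv b r - vv b p * vv a r) = 0 := by
    linear_combination vv b r * hp' - vv b p * hr'
  have e4 : (y - y') * (vv a p * vv b r - vv b p * vv a r) = 0 := by
    linear_combination vv a p * hr' - vv a r * hp'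
  have e5 := (mul_eq_zero.1 e3).resolve_right hD
  have e6 := (mul_eq_zero.1 e4).resolve_right hD
  rw [hxy, hxy', sub_eq_zero.1 e5, sub_eq_zero.1 e6]

/-- **Counting.** A set of positive integers without three multiplicatively independent elements has
at most `(log₂ N + 1) ^ 2` elements up to `N`. -/
theorem card_le_log {S : Set ℕ} (hS0 : ∀ n ∈ S, n ≠ 0) (h : ∀ f : Fin 3 → ℕ, (∀ i, f i ∈ S) →
    ∃ c : Fin 3 → ℚ, c ≠ 0 ∧ ∀ p, ∑ i, c i * vv (f i) p = 0) (N : ℕ) :
    (S ∩ Set.Iic N).ncard ≤ (Nat.log 2 N + 1) ^ 2 := by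
  classical
  obtain ⟨p, r, hpr⟩ := exists_coords hS0 h
  obtain ⟨T, hT⟩ : ∃ T : Finset (ℕ × ℕ), T = range (Nat.log 2 N + 1) ×ˢ range (Nat.log 2 N + 1) :=
    ⟨_, rfl⟩
  have hTc : T.card = (Nat.log 2 N + 1) ^ 2 := by
    rw [hT, Finset.card_product, Finset.card_range, sq]
  rw [← hTc, ← Set.ncard_coe_finset]
  refine Set.ncard_le_ncard_of_injOn (fun n => (n.factorization p, n.factorization r)) ?_ ?_
    (Finset.finite_toSet T)
  · rintro n ⟨hn, hnN⟩
    rw [hT, Finset.mem_coe, Finset.mem_product, Finset.mem_range, Finset.mem_range]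
    exact ⟨Nat.lt_succ_of_le (vv_le (hS0 n hn) hnN), Nat.lt_succ_of_le (vv_le (hS0 n hn) hnN)⟩
  · rintro m ⟨hm, -⟩ n ⟨hn, -⟩ hmn
    have h1 := congrArg Prod.fst hmn
    have h2 := congrArg Prod.snd hmn
    refine hpr m hm n hn ?_ ?_
    · unfold vv
      exact_mod_cast h1
    · unfold vv
      exact_mod_cast h2

end Pool.Agent.U492.GP
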